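import Pool.Agent.helper78.HFN.Spec

set_option autoImplicit false

open Polynomial Module

namespace Pool.Agent.HFN

noncomputable section

theorem CHA_ne (l : List AA) (hl : ∀ E ∈ l, Irreducible E) : l.prod ≠ 0 := by
  intro h
  obtain ⟨E, hE⟩ : ∃ E ∈ l, E = 0 := by
    have := List.prod_eq_zero_iff.1 h
    exact ⟨0, this, rfl⟩
  exact (hl E hE.1).ne_zero hE.2

theorem CHA (hSTP : STP_stmt) : CHA_stmt := by
  intro Z l
  induction l with
  | nil =>
    intro _ κ _ i' j' i j _ _ _ _
    rw [List.prod_nil, dX_one, dY_one, Nat.sub_zero, Nat.sub_zero, List.foldl_nil]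
    exact Nat.le_add_right _ _
  | cons E l ih =>
    intro hl κ hκ i' j' i j hi hj h1 h2
    have hE : Irreducible E := hl E (List.mem_cons_self ..)
    have hl' : ∀ E ∈ l, Irreducible E := fun x hx => hl x (List.mem_cons_of_mem _ hx)
    have hp := CHA_ne l hl'
    rw [List.prod_cons, dX_mul hE.ne_zero hp] at h1
    rw [List.prod_cons, dY_mul hE.ne_zero hp] at h2
    rw [List.prod_cons, dX_mul hE.ne_zero hp, dY_mul hE.ne_zero hp, List.foldl_cons]
    have hs := hSTP Z κ hκ E hE i' j' (by omega) (by omega)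
    have hr : ∀ z, res κ E z ≤ 2 := fun z => le_trans (Nat.sub_le _ _) (hκ z)
    have hi2 := ih hl' (res κ E) hr (i' - dX E) (j' - dY E) i j (by omega) (by omega) (by omega) (by omega)
    rw [Nat.sub_sub, Nat.sub_sub] at hi2
    have hip : ip i' j' E ≤ ip i j E :=
      Nat.add_le_add (Nat.mul_le_mul_right _ hi) (Nat.mul_le_mul_right _ hj)
    have hb : bnd Z i j (E :: l) κ = (ip i j E + 1 - lam Z κ E) + bnd Z i j l (res κ E) := rfl
    rw [hb]
    omega

end

end Pool.Agent.HFN
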